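import Pool.Agent.Helper43K9.PS.Main

/-!
# Edge-disjoint parity subgraphs and odd edge cuts

Every finite graph (parallel edges and loops allowed) with odd-connectivity `k_o` contains an odd
number `m ≥ (k_o - 1) / 2` of pairwise edge-disjoint parity subgraphs.
-/

set_option autoImplicit false

namespace Pool.Agent.Results.MP_8a6cf8_co.ParityPacking

/-- The degree of the vertex `v` in the subgraph with the edge set `H`; a loop counts twice. The
graph has the vertex set `V` and the edge set `E`, and `ends e` is the pair of the ends of the
edge `e`. -/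
noncomputable def degree {V E : Type} (ends : E → Sym2 V) (H : Set E) (v : V) : ℕ :=
  {e | e ∈ H ∧ v ∈ ends e}.ncard + {e | e ∈ H ∧ ends e = s(v, v)}.ncard

/-- `H` is (the edge set of) a parity subgraph: all degrees have the same parity as in the graph. -/
def IsParitySubgraph {V E : Type} (ends : E → Sym2 V) (H : Set E) : Prop :=
  ∀ v, degree ends H v ≡ degree ends Set.univ v [MOD 2]

/-- The edge cut `δ(X)`: the edges with exactly one end in `X`. -/
def cut {V E : Type} (ends : E → Sym2 V) (X : Set V) : Set E :=
  {e | (∃ v ∈ ends e, v ∈ X) ∧ (∃ v ∈ ends e, v ∉ X)}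

/-- The odd-connectivity: the smallest odd number which is the size of an edge cut (and `0` if there
is no odd edge cut, that is, if all degrees are even). -/
noncomputable def oddConnectivity {V E : Type} (ends : E → Sym2 V) : ℕ :=
  sInf {n | Odd n ∧ ∃ X : Set V, (cut ends X).ncard = n}

open Pool.Agent.Helper43K9.PS in
/-- Every finite graph with odd-connectivity `k_o` contains at least `(k_o - 1) / 2` pairwise
edge-disjoint parity subgraphs; more precisely, an odd number `m ≥ (k_o - 1) / 2` of them. -/
theorem result : ∀ (V E : Type) [Finite V] [Finite E] (ends : E → Sym2 V),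
    ∃ m : ℕ, (oddConnectivity ends - 1) / 2 ≤ m ∧ Odd m ∧
      ∃ H : Fin m → Set E, (∀ i, IsParitySubgraph ends (H i)) ∧
        Pairwise (fun i j => Disjoint (H i) (H j)) := by
  classical
  intro V E _ _ ends
  have : Fintype V := Fintype.ofFinite V
  have : Fintype E := Fintype.ofFinite E
  have hex : ∀ e, ∃ p : V × V, ends e = s(p.1, p.2) := by
    intro e
    induction ends e using Sym2.ind with
    | _ x y => exact ⟨(x, y), rfl⟩
  choose p hp using hex
  let src : E → V := fun e => (p e).1
  let dst : E → V := fun e => (p e).2
  have hends : ∀ e, ends e = s(src e, dst e) := hp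
  -- degrees
  have hdeg : ∀ (H : Finset E) (v : V), ((degree ends (H : Set E) v : ℕ) : ZMod 2) =
      par src dst H v := by
    intro H v
    have h1 : {e | e ∈ (H : Set E) ∧ v ∈ ends e} =
        ((H.filter (fun e => src e = v ∨ dst e = v) : Finset E) : Set E) := by
      ext e
      rw [Set.mem_ofPred_eq, Finset.mem_coe, Finset.mem_coe, Finset.mem_filter, hends,
        Sym2.mem_iff, eq_comm (a := v), eq_comm (a := v)]
    have h2 : {e | e ∈ (H : Set E) ∧ ends e = s(v, v)} =
        ((H.filter (fun e => src e = v ∧ dst e = v) : Finset E) : Set E) := by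
      ext e
      rw [Set.mem_ofPred_eq, Finset.mem_coe, Finset.mem_coe, Finset.mem_filter, hends, Sym2.eq_iff]
      tauto
    unfold degree
    rw [h1, h2, Set.ncard_coe_finset, Set.ncard_coe_finset, Finset.card_filter, Finset.card_filter,
      ← Finset.sum_add_distrib, Nat.cast_sum]
    unfold par
    refine Finset.sum_congr rfl fun e _ => ?_
    by_cases a : src e = v <;> by_cases b : dst e = v <;> simp [a, b] <;> rfl
  have hcut : ∀ X : Finset V, (cut ends (X : Set V)).ncard = (dl src dst X).card := by
    intro X
    have h1 : cut ends (X : Set V) = ((dl src dst X : Finset E) : Set E) := by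
      ext e
      unfold cut dl
      rw [Set.mem_ofPred_eq, Finset.mem_coe, Finset.mem_filter, hends]
      simp only [Sym2.mem_iff, Finset.mem_coe, Finset.mem_univ, true_and, exists_eq_or_imp,
        exists_eq_left]
      tauto
    rw [h1, Set.ncard_coe_finset]
  obtain ⟨m, hm, hmo, H, hd, hpar⟩ := packing_odd ((oddConnectivity ends - 1) / 2) src dst (by
    intro X hX
    have h1 : oddConnectivity ends ≤ (dl src dst X).card := by
      apply Nat.sInf_le
      exact ⟨hX, (X : Set V), hcut X⟩
    have h2 : 0 < (dl src dst X).card := hX.pos
    omega)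
  refine ⟨m, hm, hmo, fun i => (H i : Set E), fun i v => ?_, fun i j hij => ?_⟩
  · rw [← ZMod.natCast_eq_natCast_iff, hdeg, hpar]
    have h1 := hdeg Finset.univ v
    rw [Finset.coe_univ] at h1
    exact h1.symm
  · exact Finset.disjoint_coe.2 (hd i j hij)

end Pool.Agent.Results.MP_8a6cf8_co.ParityPacking
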